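import Pool.Agent.Helper66.IL.Cover
import Pool.Agent.Helper66.IL.Final

/-!
Coverings of rooted trees by rooted pieces, and the closure argument for the cost of a covering,
with upward contexts only. Cutting edges inside the contexts is allowed.
-/

namespace Pool.Agent.Helper91.OC

open Pool.Agent.Helper66.IL
open Pool.Agent.Helper66.IL.Q
open Pool.Agent.Helper44.Idg (Gm Cm)
open Pool.Agent.Helper60.Idg (B)

/-- number of vertices -/
def sz : Q → ℤ
  | .e => 0
  | .cut => 0
  | .n x y => sz x + sz y + 1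

theorem sz_tm (q : Q) (f : Bool) : ((tm f q).size : ℤ) = sz q := by
  induction q generalizing f with
  | e => rfl
  | cut => rfl
  | n x y ihx ihy =>
    show ((MB.n _ (tm false x) (tm false y)).size : ℤ) = _
    rw [MB.size]
    push_cast
    rw [ihx, ihy]
    simp only [sz]

/-- `Cv W b q v`: the open tree `b` can be cut further so that the piece of its root is `q`, and
the other pieces have total value `v`. The pieces are rooted, and `W q w` means that the piece `q`
with a cut edge above its root has value `w`. -/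
inductive Cv (W : Q → ℤ → Prop) : Q → Q → ℤ → Prop
  | e : Cv W .e .e 0
  | ct : Cv W .cut .cut 0
  | n {x y p q : Q} {v w : ℤ} : Cv W x p v → Cv W y q w → Cv W (.n x y) (.n p q) (v + w)
  | cut {b q : Q} {v w : ℤ} : Cv W b q v → W q w → Cv W b .cut (v + w)

variable {W : Q → ℤ → Prop}

theorem Cv.refl (b : Q) : Cv W b b 0 := by
  induction b with
  | e => exact .e
  | cut => exact .ct
  | n x y ihx ihy => exact Cv.n ihx ihy

theorem Cv.cast {b q : Q} {v v' : ℤ} (h : Cv W b q v) (e : v = v') : Cv W b q v' := e ▸ h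

/-- the excess form of the bound -/
def E (u t l : ℤ) (b c : MB) (m : ℤ) : Prop :=
  pg.P u t {(b, c)} 0 (m + l * ((b.size : ℤ) + c.size))

theorem E.congr {u t l : ℤ} {b c b' c' : MB} {m : ℤ} (h : E u t l b c m)
    (hp : PEq {(b, c)} {(b', c')}) (hs : b.size + c.size = b'.size + c'.size) :
    E u t l b' c' m := by
  unfold E at *
  have : ((b'.size : ℤ) + c'.size) = (b.size : ℤ) + c.size := by exact_mod_cast hs.symm
  rw [this]
  exact P_congr hp (PEq.refl _) h

theorem E.cast {u t l : ℤ} {b c : MB} {m m' : ℤ} (h : E u t l b c m) (e : m = m') :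
    E u t l b c m' := e ▸ h

/-- the values of the pieces are bounds for the game -/
def Sound (W : Q → ℤ → Prop) (u t l : ℤ) : Prop :=
  ∀ q w, W q w → E u t l (tm true q) .e w

theorem mkf_size (f : Bool) (b : MB) : (mkf f b).size = b.size := by
  cases f
  · rfl
  · exact mk_size b

theorem Cv.sound {u t l : ℤ} (hW : Sound W u t l) {b q : Q} {v : ℤ} (h : Cv W b q v) :
    ∀ (f : Bool) (c : MB) (m : ℤ), E u t l (tm f q) (mkf q.isCut c) m →
      E u t l (tm f b) (mkf b.isCut c) (m + v) := by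
  induction h with
  | e => intro f c m h; exact h.cast (by ring)
  | ct => intro f c m h; exact h.cast (by ring)
  | @n x y p q v w hx hy ihx ihy =>
    intro f c m h
    have h0 : E u t l (MB.n (f || p.isCut || q.isCut) (tm false p) (tm false q)) c m := h
    have h1 : E u t l (tm false q) (mkf q.isCut (MB.n (f || p.isCut) (tm false p) c)) m := by
      rw [mkf_n]
      refine h0.congr ((PEq.sw _ _ _ _).trans (PEq.rho _ _ _ _)) ?_
      simp only [MB.size]; omega
    have h2 := ihy false (MB.n (f || p.isCut) (tm false p) c) m h1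
    have h3 : E u t l (tm false p) (mkf p.isCut (MB.n (f || y.isCut) (tm false y) c)) (m + w) := by
      rw [mkf_n] at h2 ⊢
      have e1 : (f || y.isCut || p.isCut) = (f || p.isCut || y.isCut) := by
        generalize y.isCut = a, p.isCut = b
        cases a <;> cases b <;> cases f <;> rfl
      rw [e1]
      refine h2.congr ((PEq.rho _ _ _ _).symm.trans ((PEq.sw _ _ _ _).trans (PEq.rho _ _ _ _))) ?_
      simp only [MB.size]; omega
    have h4 := ihx false (MB.n (f || y.isCut) (tm false y) c) (m + w) h3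
    rw [mkf_n] at h4
    have e1 : mkf (Q.n x y).isCut c = c := rfl
    have e2 : tm f (.n x y) = MB.n (f || y.isCut || x.isCut) (tm false x) (tm false y) := by
      show MB.n (f || x.isCut || y.isCut) (tm false x) (tm false y) = _
      generalize y.isCut = a, x.isCut = b
      cases a <;> cases b <;> cases f <;> rfl
    rw [e1, e2]
    refine (h4.congr (PEq.rho _ _ _ _).symm ?_).cast (by ring)
    simp only [MB.size]; omega
  | @cut b q v w hb hq ih =>
    intro f c m h
    have h1 : E u t l (MB.mk c) .e m := by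
      refine E.congr (b := .e) (c := MB.mk c) h (PEq.sig _ _) ?_
      simp only [MB.size]; omega
    have h2 : E u t l (tm true q) (mkf q.isCut MB.e) w := by
      rw [mkf_e]; exact hW q w hq
    have h3 := ih true .e w h2
    rw [mkf_e] at h3
    have e0 : ∀ q : Q, MB.mk (tm f q) = tm true q := by
      intro q
      cases q with
      | e => rfl
      | cut => rfl
      | n x y =>
        show MB.n (true) _ _ = MB.n (true || _ || _) _ _
        simp
    have e1 : tm true b = MB.mk (tm f b) := (e0 b).symm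
    rw [e1] at h3
    have e2 : MB.mk c = MB.mk (mkf b.isCut c) := (mk_mkf _ _).symm
    rw [e2] at h1
    unfold E at h1 h3 ⊢
    have h5 := P_cut h3 h1
    refine h5.mono le_rfl (le_of_eq ?_)
    rw [mk_size, mk_size]
    simp only [MB.size]
    push_cast
    ring

/-- the total value of a covering is a bound for the game -/
theorem Cv.bound {u t l : ℤ} (hW : Sound W u t l) {b : Q} {v : ℤ} (h : Cv W b .cut v)
    (hb : b ≠ .cut) : E u t l (tm true b) .e v := by
  generalize hc : Q.cut = q at h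
  cases h with
  | e => cases hc
  | ct => exact absurd rfl hb
  | n _ _ => cases hc
  | @cut _ q v w h1 h2 =>
    have h3 : E u t l (tm true q) (mkf q.isCut MB.e) w := by rw [mkf_e]; exact hW q w h2
    have h4 := h1.sound hW true .e w h3
    rw [mkf_e] at h4
    exact h4.cast (by ring)

/-! ### compositions -/

theorem Cv.of_cut (hW : ∀ w, ¬ W .cut w) {b q : Q} {v : ℤ} (h : Cv W b q v) (hb : b = .cut) :
    q = .cut ∧ v = 0 := by
  induction h with
  | e => cases hb
  | ct => exact ⟨rfl, rfl⟩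
  | n _ _ => cases hb
  | cut h1 h2 ih =>
    obtain ⟨rfl, rfl⟩ := ih hb
    exact absurd h2 (hW _)

theorem Cv.trans (hW : ∀ w, ¬ W .cut w) {a b : Q} {v : ℤ} (h : Cv W a b v) :
    ∀ {q : Q} {w : ℤ}, Cv W b q w → Cv W a q (v + w) := by
  induction h with
  | e => intro q w h; exact h.cast (by ring)
  | ct => intro q w h; exact h.cast (by ring)
  | @n x y p q v w hx hy ihx ihy =>
    intro r u h
    generalize hb : Q.n p q = b at h
    induction h with
    | e => cases hb
    | ct => cases hb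
    | n h1 h2 _ _ =>
      cases hb
      exact (Cv.n (ihx h1) (ihy h2)).cast (by ring)
    | cut h1 h2 ih =>
      exact (Cv.cut (ih hb) h2).cast (by ring)
  | @cut b q v w hb hq ih =>
    intro r u h
    obtain ⟨rfl, rfl⟩ := Cv.of_cut hW h rfl
    exact (Cv.cut hb hq).cast (by ring)

/-! ### contexts -/

/-- the tree `q` with the siblings `c` along the path to the root, which is the first one -/
def plug : List Q → Q → Q
  | [], q => q
  | r :: c, q => .n (plug c q) r

theorem plug_append (c d : List Q) (q : Q) : plug (c ++ d) q = plug c (plug d q) := by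
  induction c with
  | nil => rfl
  | cons r c ih => simp only [List.cons_append, plug, ih]

/-- `Dom W b z s`: coverings of trees containing `z` give coverings of the trees with `b` instead
of `z` at additional cost `s`. -/
def Dom (W : Q → ℤ → Prop) (b z : Q) (s : ℤ) : Prop :=
  ∀ (c : List Q) (v : ℤ), Cv W (plug c z) .cut v → ∃ v', v' ≤ v + s ∧ Cv W (plug c b) .cut v'

theorem Dom.refl (W : Q → ℤ → Prop) (b : Q) : Dom W b b 0 :=
  fun _ v h => ⟨v, by linarith, h⟩

theorem Dom.trans {b b' b'' : Q} {s s' : ℤ} (h : Dom W b b' s) (h' : Dom W b' b'' s') :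
    Dom W b b'' (s + s') := by
  intro c v h1
  obtain ⟨v1, h2, h3⟩ := h' c v h1
  obtain ⟨v2, h4, h5⟩ := h c v1 h3
  exact ⟨v2, by linarith, h5⟩

theorem Dom.mono {b b' : Q} {s s' : ℤ} (h : Dom W b b' s) (hs : s ≤ s') : Dom W b b' s' := by
  intro c v h1
  obtain ⟨v1, h2, h3⟩ := h c v h1
  exact ⟨v1, by linarith, h3⟩

theorem Dom.left {b b' : Q} {s : ℤ} (h : Dom W b b' s) (y : Q) :
    Dom W (.n b y) (.n b' y) s := by
  intro c v h1
  have e1 : ∀ b : Q, plug (c ++ [y]) b = plug c (.n b y) := fun b => by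
    rw [plug_append]; rfl
  obtain ⟨v', h2, h3⟩ := h (c ++ [y]) v (by rw [e1]; exact h1)
  rw [e1] at h3
  exact ⟨v', h2, h3⟩

/-- equality up to the order of the children -/
inductive QEq : Q → Q → Prop
  | refl (q : Q) : QEq q q
  | symm {q q' : Q} : QEq q q' → QEq q' q
  | trans {q q' q'' : Q} : QEq q q' → QEq q' q'' → QEq q q''
  | n {x y x' y' : Q} : QEq x x' → QEq y y' → QEq (.n x y) (.n x' y')
  | sw (x y : Q) : QEq (.n x y) (.n y x)

/-- `W` does not depend on the order of the children -/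
def Inv (W : Q → ℤ → Prop) : Prop := ∀ q q' w, QEq q q' → W q w → W q' w

theorem Cv.inv_sw (hI : Inv W) {x y r : Q} {v : ℤ} (h : Cv W (.n x y) r v) :
    ∃ r', QEq r r' ∧ Cv W (.n y x) r' v := by
  generalize hb : Q.n x y = b at h
  induction h with
  | e => cases hb
  | ct => cases hb
  | @n _ _ p q v w h1 h2 _ _ =>
    cases hb
    exact ⟨.n q p, QEq.sw _ _, (Cv.n h2 h1).cast (by ring)⟩
  | cut h1 h2 ih =>
    obtain ⟨r', h3, h4⟩ := ih hb
    exact ⟨.cut, QEq.refl _, Cv.cut h4 (hI _ _ _ h3 h2)⟩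

theorem Cv.inv_n (hI : Inv W) {x y x' y' r : Q} {v : ℤ}
    (ihx : ∀ {r v}, Cv W x r v → ∃ r', QEq r r' ∧ Cv W x' r' v)
    (ihy : ∀ {r v}, Cv W y r v → ∃ r', QEq r r' ∧ Cv W y' r' v)
    (h : Cv W (.n x y) r v) :
    ∃ r', QEq r r' ∧ Cv W (.n x' y') r' v := by
  generalize hb : Q.n x y = b at h
  induction h with
  | e => cases hb
  | ct => cases hb
  | @n _ _ p q v w h1 h2 _ _ =>
    cases hb
    obtain ⟨p', h3, h4⟩ := ihx h1
    obtain ⟨q', h5, h6⟩ := ihy h2
    exact ⟨.n p' q', QEq.n h3 h5, Cv.n h4 h6⟩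
  | cut h1 h2 ih =>
    obtain ⟨r', h3, h4⟩ := ih hb
    exact ⟨.cut, QEq.refl _, Cv.cut h4 (hI _ _ _ h3 h2)⟩

theorem Cv.inv (hI : Inv W) {b b' : Q} (hb : QEq b b') :
    (∀ {r v}, Cv W b r v → ∃ r', QEq r r' ∧ Cv W b' r' v) ∧
    (∀ {r v}, Cv W b' r v → ∃ r', QEq r r' ∧ Cv W b r' v) := by
  induction hb with
  | refl q => exact ⟨fun h => ⟨_, QEq.refl _, h⟩, fun h => ⟨_, QEq.refl _, h⟩⟩
  | symm _ ih => exact ⟨ih.2, ih.1⟩
  | trans _ _ ih1 ih2 =>
    constructor
    · intro r v h
      obtain ⟨r1, h1, h2⟩ := ih1.1 h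
      obtain ⟨r2, h3, h4⟩ := ih2.1 h2
      exact ⟨r2, h1.trans h3, h4⟩
    · intro r v h
      obtain ⟨r1, h1, h2⟩ := ih2.2 h
      obtain ⟨r2, h3, h4⟩ := ih1.2 h2
      exact ⟨r2, h1.trans h3, h4⟩
  | n _ _ ih1 ih2 => exact ⟨Cv.inv_n hI ih1.1 ih2.1, Cv.inv_n hI ih1.2 ih2.2⟩
  | sw x y => exact ⟨Cv.inv_sw hI, Cv.inv_sw hI⟩

theorem QEq.cut {q : Q} (h : QEq .cut q) : q = .cut := by
  have : ∀ {a b : Q}, QEq a b → (a = .cut ↔ b = .cut) := by
    intro a b h
    induction h with
    | refl => exact Iff.rfl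
    | symm _ ih => exact ih.symm
    | trans _ _ ih1 ih2 => exact ih1.trans ih2
    | n _ _ => constructor <;> intro h <;> cases h
    | sw _ _ => constructor <;> intro h <;> cases h
  exact (this h).1 rfl

theorem QEq.plug {q q' : Q} (h : QEq q q') (c : List Q) : QEq (plug c q) (OC.plug c q') := by
  induction c with
  | nil => exact h
  | cons r c ih => exact QEq.n ih (QEq.refl _)

theorem Dom.of_eq (hI : Inv W) {b b' : Q} (h : QEq b b') : Dom W b b' 0 := by
  intro c v h1
  obtain ⟨r, h2, h3⟩ := (Cv.inv hI (h.symm.plug c)).1 h1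
  rw [h2.cut] at h3
  exact ⟨v, by linarith, h3⟩

theorem Dom.n (hI : Inv W) {x x' y y' : Q} {s s' : ℤ} (hx : Dom W x x' s) (hy : Dom W y y' s') :
    Dom W (.n x y) (.n x' y') (s + s') := by
  have h1 := hx.left y
  have h2 := ((Dom.of_eq hI (QEq.sw x' y)).trans (hy.left x')).trans (Dom.of_eq hI (QEq.sw y' x'))
  exact (h1.trans h2).mono (by linarith)

/-- cutting off a branch -/
theorem Dom.cut (hW : ∀ w, ¬ W .cut w) {b : Q} {v : ℤ} (h : Cv W b .cut v) :
    Dom W b .cut v := by
  intro c v' h1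
  have : ∀ c : List Q, Cv W (plug c b) (plug c .cut) v := by
    intro c
    induction c with
    | nil => exact h
    | cons r c ih => exact (Cv.n ih (Cv.refl r)).cast (by ring)
  exact ⟨v + v', by linarith, (this c).trans hW h1⟩

/-- the coverings of a tree containing `z` -/
theorem local_aux (hW : ∀ w, ¬ W .cut w) {b z : Q} {s : ℤ} (hz : z ≠ .cut)
    (h : ∀ c q v w, q ≠ .cut → Cv W z q v → W (plug c q) w →
      ∃ v', v' ≤ v + w + s ∧ Cv W (plug c b) .cut v') (c : List Q) :
    ∀ {p : Q} {v : ℤ}, Cv W (plug c z) p v →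
      (∃ c' q vz vc, q ≠ .cut ∧ Cv W z q vz ∧ p = plug c' q ∧ v = vz + vc ∧
        ∀ b, Cv W (plug c b) (plug c' b) vc) ∨
      (∃ v', v' ≤ v + s ∧ Cv W (plug c b) p v') := by
  induction c with
  | nil =>
    intro p v h1
    have h1' : Cv W z p v := h1
    by_cases hp : p = .cut
    · subst hp
      right
      clear h1
      generalize hc : Q.cut = q at h1'
      cases h1' with
      | e => cases hc
      | ct => exact absurd rfl hz
      | n _ _ => cases hc
      | @cut _ q v w h1 h2 =>
        obtain ⟨v', h3, h4⟩ := h [] q v w (by rintro rfl; exact hW _ h2) h1 h2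
        exact ⟨v', by linarith, h4⟩
    · exact Or.inl ⟨[], p, v, 0, hp, h1', rfl, by ring, fun b => Cv.refl _⟩
  | cons r c ih =>
    intro p v h1
    generalize hb : plug (r :: c) z = t at h1
    induction h1 with
    | e => cases hb
    | ct => cases hb
    | @n x y p1 p2 v1 v2 h2 h3 _ _ =>
      cases hb
      rcases ih h2 with ⟨c', q, vz, vc, h4, h5, h6, h7, h8⟩ | ⟨v', h4, h5⟩
      · refine Or.inl ⟨p2 :: c', q, vz, vc + v2, h4, h5, by rw [h6]; rfl, by linarith, ?_⟩
        intro b
        exact Cv.n (h8 b) h3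
      · exact Or.inr ⟨v' + v2, by linarith, Cv.n h5 h3⟩
    | @cut t q0 v0 w0 h2 h3 ih2 =>
      rcases ih2 hb with ⟨c', q, vz, vc, h4, h5, h6, h7, h8⟩ | ⟨v', h4, h5⟩
      · subst h6
        obtain ⟨v', h9, h10⟩ := h c' q vz w0 h4 h5 h3
        exact Or.inr ⟨vc + v', by linarith, (h8 b).trans hW h10⟩
      · exact Or.inr ⟨v' + w0, by linarith, Cv.cut h5 h3⟩

/-- domination from the pieces containing the root of the branch -/
theorem Dom.of_local (hW : ∀ w, ¬ W .cut w) {b z : Q} {s : ℤ} (hz : z ≠ .cut)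
    (h : ∀ c q v w, q ≠ .cut → Cv W z q v → W (plug c q) w →
      ∃ v', v' ≤ v + w + s ∧ Cv W (plug c b) .cut v') : Dom W b z s := by
  intro c v h1
  rcases local_aux hW hz h c h1 with ⟨c', q, vz, vc, h4, h5, h6, h7, h8⟩ | h2
  · exfalso
    cases c' with
    | nil => exact h4 h6.symm
    | cons _ _ => cases h6
  · exact h2

/-! ### the closure -/

/-- an uncut tree -/
def ofB : B → Q
  | .e => .e
  | .n x y => .n (ofB x) (ofB y)

theorem sz_ofB (b : B) : sz (ofB b) = b.size := by
  induction b with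
  | e => rfl
  | n x y ihx ihy =>
    simp only [ofB, sz, ihx, ihy, Helper60.Idg.B.size]
    push_cast
    ring

theorem tm_ofB (b : B) (f : Bool) : tm f (ofB b) = mkf f (emb b) := by
  induction b generalizing f with
  | e => cases f <;> rfl
  | n x y ihx ihy =>
    have h : ∀ b : B, (ofB b).isCut = false := by intro b; cases b <;> rfl
    show MB.n (f || (ofB x).isCut || (ofB y).isCut) (tm false (ofB x)) (tm false (ofB y)) = _
    rw [h, h, ihx, ihy, emb, mkf_n]
    simp [mkf]

/-- a state or the empty tree -/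
def Se (S : Q → ℤ → Prop) (x : Q) (f : ℤ) : Prop := S x f ∨ (x = .e ∧ f = 0)

/-- the closure argument; the states have potentials `φ` -/
theorem closure (hI : Inv W) (S : Q → ℤ → Prop)
    (hS : ∀ x y f g, Se S x f → Se S y g → ∃ z h, S z h ∧ Dom W (.n x y) z (h - f - g)) :
    ∀ b : B, b = .e ∨ ∃ z h, S z h ∧ Dom W (ofB b) z h := by
  have key : ∀ b : B, (b = .e ∨ ∃ z h, S z h ∧ Dom W (ofB b) z h) →
      ∃ z h, Se S z h ∧ Dom W (ofB b) z h := by
    rintro b (rfl | ⟨z, h, h1, h2⟩)
    · exact ⟨.e, 0, Or.inr ⟨rfl, rfl⟩, Dom.refl W _⟩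
    · exact ⟨z, h, Or.inl h1, h2⟩
  intro b
  induction b with
  | e => exact Or.inl rfl
  | n x y ihx ihy =>
    obtain ⟨x', f, hx, dx⟩ := key x ihx
    obtain ⟨y', g, hy, dy⟩ := key y ihy
    obtain ⟨z, h, hz, dz⟩ := hS x' y' f g hx hy
    exact Or.inr ⟨z, h, hz, ((Dom.n hI dx dy).trans dz).mono (by linarith)⟩

theorem bound {u t l C : ℤ} (hs : Sound W u t l) (hI : Inv W) (hC0 : 0 ≤ C)
    (S : Q → ℤ → Prop)
    (hS : ∀ x y f g, Se S x f → Se S y g → ∃ z h, S z h ∧ Dom W (.n x y) z (h - f - g))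
    (hC : ∀ z h, S z h → ∃ v, Cv W z .cut v ∧ v + h ≤ C) (b : B) :
    pg.P u t {(emb b, .e)} 0 (l * b.size + C) := by
  rcases closure hI S hS b with rfl | ⟨z, h, hz, hd⟩
  · have h1 : pg.P u t (0 : Multiset K) 0 0 := Gm.P.of_term Cm.term_zero Cm.term_zero le_rfl
    refine (P_congr PEq.nul.symm (PEq.refl _) h1).mono le_rfl ?_
    simp only [Helper60.Idg.B.size]
    push_cast
    linarith
  · obtain ⟨v, h1, h2⟩ := hC z h hz
    obtain ⟨v', h3, h4⟩ := hd [] v h1
    have h5 : Cv W (ofB b) .cut v' := h4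
    have h6 := h5.bound hs (by intro h; cases b <;> cases h)
    rw [tm_ofB] at h6
    have h7 : E u t l (emb b) .e v' := by
      unfold E at h6 ⊢
      rw [mkf_size] at h6
      refine P_relax ?_ h6
      cases b with
      | e => exact Rx.refl _
      | n x y => exact Rx.mark _ _ _
    unfold E at h7
    refine h7.mono le_rfl ?_
    rw [emb_size]
    simp only [MB.size]
    push_cast
    linarith

end Pool.Agent.Helper91.OC
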